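import Pool.Agent.helper7.Blk.Above
import Pool.Agent.helper17.DyS.Crit

/-!
# Branching tilings below the critical point
-/

set_option autoImplicit false
open scoped Classical
open Finset Filter Pool.Agent.helper17.Dya Pool.Agent.helper17.DyS

namespace Pool.Agent.helper7.Blk

theorem TB_below {p : ℝ} (h0 : 0 ≤ p) (hp : p < pc) : ∃ c : ℝ, 0 < c ∧ ∃ N : ℕ, ∀ n : ℕ, N ≤ n →
    ∀ h : ℕ, 1 ≤ h → (h : ℝ) ≤ c * n → TB h n p ≤ Real.exp (-(c * n * (2 : ℝ) ^ (c * n / h))) := by
  have h1 : p ≤ 1 := by have := pc_le_seven; linarith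
  obtain ⟨K, c, hc0, hc1, N0, H⟩ := below h0 hp
  have hK : 1 ≤ K := by
    obtain ⟨n, hn1, hn2, -⟩ := H (N0 + 1) (by omega)
    by_contra hcon
    have : K = 0 := by omega
    subst this
    omega
  have hKr : (1 : ℝ) ≤ K := by exact_mod_cast hK
  refine ⟨c / (256 * K), by positivity, 4 * K * (N0 + 1), fun n hn h hh hhn => ?_⟩
  obtain ⟨m, hm1, hm2, hm3⟩ := H (n / (2 * K)) (by
    rw [Nat.le_div_iff_mul_le (by omega)]
    nlinarith)
  have hnr : (4 : ℝ) * K * (N0 + 1) ≤ n := by exact_mod_cast hn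
  have hn0 : (4 : ℝ) * K ≤ n := by
    have : (0 : ℝ) ≤ 4 * K * N0 := by positivity
    nlinarith
  have hnpos : (0 : ℝ) < n := by linarith
  -- the size of `m`
  have hmn : 2 * m ≤ n := by
    have h2 : 2 * m ≤ 2 * (K * (n / (2 * K))) := by omega
    have h3 : 2 * K * (n / (2 * K)) ≤ n := Nat.mul_div_le n (2 * K)
    nlinarith
  have hmnr : (2 : ℝ) * m ≤ n := by exact_mod_cast hmn
  have hmlow : (n : ℝ) / (4 * K) ≤ m := by
    have h2 : n < 2 * K * (n / (2 * K) + 1) := Nat.lt_mul_div_succ n (by omega)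
    have h3 : n < 2 * K * (m + 1) := h2.trans_le (Nat.mul_le_mul_left _ (by omega))
    have h4 : (n : ℝ) < 2 * K * (m + 1) := by exact_mod_cast h3
    rw [div_le_iff₀ (by positivity)]
    nlinarith
  have hmpos : (0 : ℝ) < m := lt_of_lt_of_le (by positivity) hmlow
  -- the size of `h`
  have hhm : (h : ℝ) ≤ c * m / 64 := by
    refine hhn.trans ?_
    have h2 : c / (256 * K) * n = c / 64 * (n / (4 * K)) := by
      field_simp
      ring
    rw [h2]
    calc c / 64 * (n / (4 * K)) ≤ c / 64 * m := mul_le_mul_of_nonneg_left hmlow (by positivity)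
      _ = c * m / 64 := by ring
  have hhm2 : (h : ℝ) ≤ m / 64 := by
    refine hhm.trans ?_
    have : c * m ≤ 1 * m := mul_le_mul_of_nonneg_right hc1 hmpos.le
    linarith
  have hhm3 : h < m := by
    have : (h : ℝ) < m := by linarith
    exact_mod_cast this
  have hε : ∀ j, m - h ≤ j → j < m → Pool.Agent.helper17.DyS.T j p ≤ Real.exp (-(c * m / 2)) := by
    intro j hj1 hj2
    have e1 : (m : ℝ) - h ≤ j := by
      have : m ≤ j + h := by omega
      have : (m : ℝ) ≤ j + h := by exact_mod_cast this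
      linarith
    have e2 : (m : ℝ) / 2 ≤ j := by linarith
    refine (hm3 j ?_ hj2.le).trans (Real.exp_le_exp.2 ?_)
    · nlinarith
    · nlinarith
  have h64 : ((64 : ℝ) ^ h) ^ 2 ≤ Real.exp (c * m / 4) := by
    have e1 : (64 : ℝ) ≤ Real.exp 5 := by
      have e2 : (2.7 : ℝ) ≤ Real.exp 1 := by have := Real.exp_one_gt_d9; linarith
      have e3 : Real.exp 5 = Real.exp 1 ^ 5 := by
        rw [← Real.exp_nat_mul]
        norm_num
      rw [e3]
      calc (64 : ℝ) ≤ 2.7 ^ 5 := by norm_num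
        _ ≤ _ := pow_le_pow_left₀ (by norm_num) e2 5
    calc ((64 : ℝ) ^ h) ^ 2 ≤ ((Real.exp 5) ^ h) ^ 2 :=
          pow_le_pow_left₀ (by positivity) (pow_le_pow_left₀ (by norm_num) e1 h) 2
      _ = Real.exp (10 * h) := by
          rw [← pow_mul, ← Real.exp_nat_mul]
          congr 1
          push_cast
          ring
      _ ≤ Real.exp (c * m / 4) := Real.exp_le_exp.2 (by linarith)
  have hδ : ((64 : ℝ) ^ h) ^ 2 * Real.exp (-(c * m / 2)) ≤ Real.exp (-(c * m / 4)) := by
    calc ((64 : ℝ) ^ h) ^ 2 * Real.exp (-(c * m / 2)) ≤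
          Real.exp (c * m / 4) * Real.exp (-(c * m / 2)) :=
            mul_le_mul_of_nonneg_right h64 (Real.exp_pos _).le
      _ = Real.exp (-(c * m / 4)) := by
          rw [← Real.exp_add]
          congr 1
          ring
  have hδ1 : Real.exp (-(c * m / 4)) ≤ 1 := by
    rw [← Real.exp_zero]
    refine Real.exp_le_exp.2 ?_
    have : 0 ≤ c * m := by positivity
    linarith
  refine (TB_le h0 h1 hh hhm3 (by omega) hε (hδ.trans hδ1) (Real.exp_pos _).le).trans ?_
  refine (pow_le_pow_left₀ (by positivity) hδ _).trans ?_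
  rw [← Real.exp_nat_mul]
  refine Real.exp_le_exp.2 ?_
  push_cast
  have hhr : (1 : ℝ) ≤ h := by exact_mod_cast hh
  set r := (n - (m - h)) / h with hr
  have hr2 : c / (256 * K) * n / h ≤ r := by
    have e1 : n - (m - h) < h * (r + 1) := Nat.lt_mul_div_succ _ (by omega)
    have e2 : n + h < h * (r + 1) + m := by omega
    have e3 : (n : ℝ) + h < h * (r + 1) + m := by exact_mod_cast e2
    rw [div_le_iff₀ (by linarith)]
    have e4 : c / (256 * K) ≤ 1 / 2 := by
      rw [div_le_div_iff₀ (by positivity) (by norm_num)]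
      nlinarith
    nlinarith
  have hpow : (2 : ℝ) ^ (c / (256 * K) * n / h) ≤ 2 ^ r := by
    rw [← Real.rpow_natCast]
    exact Real.rpow_le_rpow_of_exponent_le (by norm_num) hr2
  have hcm : c / (256 * K) * n ≤ c * m / 4 := by
    have e1 : c / (256 * K) * n = c / 64 * (n / (4 * K)) := by
      field_simp
      ring
    rw [e1]
    have e2 : c / 64 * (n / (4 * K)) ≤ c / 64 * m := mul_le_mul_of_nonneg_left hmlow (by positivity)
    have : 0 ≤ c * m := by positivity
    linarith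
  have hfin : c / (256 * K) * n * (2 : ℝ) ^ (c / (256 * K) * n / h) ≤ c * m / 4 * 2 ^ r :=
    mul_le_mul hcm hpow (by positivity) (by positivity)
  linarith

theorem TS_over {p : ℝ} (hp : pc < p) (h1 : p ≤ 1) : ∃ h0 : ℕ, ∀ h : ℕ, h0 ≤ h → ∀ n : ℕ, h0 ≤ n →
    1 - (1 / 2) ^ (n + 1) ≤ TS h n p := by
  have hp0 : 0 ≤ p := by have := le_pc; linarith
  obtain ⟨k, hk⟩ := (criterion hp0 h1).1 hp
  refine ⟨k + 1, fun h hh n hn => ?_⟩
  exact TS_above (by omega) hp0 h1 hk.le n (by omega)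

theorem TB_seq_below {p : ℝ} (h0 : 0 ≤ p) (hp : p < pc) (h : ℕ → ℕ)
    (hh : Tendsto h atTop atTop) (hh2 : Tendsto (fun n => (h n : ℝ) / n) atTop (nhds 0)) :
    Tendsto (fun n => TB (h n) n p) atTop (nhds 0) := by
  have h1 : p ≤ 1 := by have := pc_le_seven; linarith
  obtain ⟨c, hc, N, H⟩ := TB_below h0 hp
  have h2 : Tendsto (fun n : ℕ => Real.exp (-(c * n))) atTop (nhds 0) := by
    refine Real.tendsto_exp_atBot.comp ?_
    refine tendsto_neg_atTop_atBot.comp ?_
    exact Tendsto.const_mul_atTop hc tendsto_natCast_atTop_atTop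
  refine tendsto_of_tendsto_of_tendsto_of_le_of_le' tendsto_const_nhds h2
    (Eventually.of_forall fun n => TB_nonneg h0 h1) ?_
  filter_upwards [eventually_ge_atTop N, hh.eventually_ge_atTop 1, hh2.eventually_le_const hc,
    eventually_gt_atTop 0] with n hn hn1 hn2 hn3
  have hn4 : (0 : ℝ) < n := by exact_mod_cast hn3
  rw [div_le_iff₀ hn4] at hn2
  refine (H n hn (h n) hn1 hn2).trans (Real.exp_le_exp.2 ?_)
  have h3 : (1 : ℝ) ≤ (2 : ℝ) ^ (c * n / h n) := Real.one_le_rpow (by norm_num) (by positivity)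
  have h4 : 0 ≤ c * n := by positivity
  nlinarith

theorem TS_seq_over {p : ℝ} (hp : pc < p) (h1 : p ≤ 1) (h : ℕ → ℕ)
    (hh : Tendsto h atTop atTop) : Tendsto (fun n => TS (h n) n p) atTop (nhds 1) := by
  have hp0 : 0 ≤ p := by have := le_pc; linarith
  obtain ⟨k, H⟩ := TS_over hp h1
  have h2 : Tendsto (fun n : ℕ => 1 - (1 / 2 : ℝ) ^ (n + 1)) atTop (nhds 1) := by
    have h3 := (tendsto_pow_atTop_nhds_zero_of_lt_one (r := (1 / 2 : ℝ)) (by norm_num)
      (by norm_num)).comp (tendsto_add_atTop_nat 1)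
    have h4 := (tendsto_const_nhds (x := (1 : ℝ))).sub h3
    simpa using h4
  refine tendsto_of_tendsto_of_tendsto_of_le_of_le' h2 tendsto_const_nhds ?_
    (Eventually.of_forall fun n => TS_le_one hp0 h1)
  filter_upwards [eventually_ge_atTop k, hh.eventually_ge_atTop k] with n hn hn1
  exact H (h n) hn1 n hn

end Pool.Agent.helper7.Blk
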