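import Pool.Agent.helper7.Blk.Step

/-!
# Split tilings above the critical point
-/

set_option autoImplicit false
open scoped Classical
open Finset Pool.Agent.helper17.Dya Pool.Agent.helper17.DyS

namespace Pool.Agent.helper7.Blk

/-- all boxes of relative order `m` fail with probability at most `x` -/
def Bd (h m : ℕ) (p x : ℝ) : Prop :=
  ∀ n, m ≤ n → ∀ B : Tl, Vl (n - m) B → Pr p (fun ω => ¬ AlS h n B ω) ≤ x

lemma Bd_base {h m : ℕ} {p : ℝ} (h0 : 0 ≤ p) (h1 : p ≤ 1) (hm : m ≤ h) :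
    Bd h m p (1 - T m p) := by
  intro n hmn B hB
  rw [← Pr_Al (p := p) hmn hB, ← Pr_not]
  refine Pr_mono h0 h1 fun ω hω hA => hω (AlS_of_al ?_ hA)
  have : od B = n - m := hB.1
  omega

/-- the part of thickness `2 ^ (-t)` with number `j` of `B` in the direction `i` -/
def sl (B : Tl) (i : Fin 3) (t j : ℕ) : Tl :=
  (fun l => if l = i then B.1 l + t else B.1 l, fun l => if l = i then B.2 l * 2 ^ t + j else B.2 l)

lemma sl_zero (B : Tl) (i : Fin 3) : sl B i 0 0 = B := by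
  unfold sl
  refine Prod.ext (funext fun l => ?_) (funext fun l => ?_)
  · simp
  · simp

lemma ch_sl (B : Tl) (i : Fin 3) (t j e : ℕ) : ch (sl B i t j) i e = sl B i (t + 1) (2 * j + e) := by
  unfold ch sl
  refine Prod.ext (funext fun l => ?_) (funext fun l => ?_)
  · by_cases h : l = i <;> simp [h, add_assoc]
  · by_cases h : l = i
    · simp only [h, if_true]
      ring
    · simp [h]

lemma Vl_sl {m : ℕ} {B : Tl} (hB : Vl m B) {i : Fin 3} {t j : ℕ} (hj : j < 2 ^ t) :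
    Vl (m + t) (sl B i t j) := by
  constructor
  · rw [← hB.1]
    unfold sl
    have h1 : ∀ l : Fin 3, (if l = i then B.1 l + t else B.1 l) =
        B.1 l + if l = i then t else 0 := by
      intro l
      split_ifs <;> rfl
    simp only [h1, sum_add_distrib, sum_ite_eq', mem_univ, if_true]
  · intro l
    unfold sl
    by_cases h : l = i
    · subst h
      simp only [if_true]
      rw [pow_add]
      calc B.2 l * 2 ^ t + j < B.2 l * 2 ^ t + 2 ^ t := by omega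
        _ = (B.2 l + 1) * 2 ^ t := by ring
        _ ≤ 2 ^ B.1 l * 2 ^ t := Nat.mul_le_mul_right _ (hB.2 l)
    · simp only [h, if_false]
      exact hB.2 l

/-- a box has a split tiling if all its parts have one -/
theorem AlS_slabs {h n : ℕ} (B : Tl) (i : Fin 3) {ω : It n → Bool} : ∀ s t j : ℕ,
    B.1 i + t + s ≤ n →
    (∀ j' : ℕ, j' / 2 ^ s = j → AlS h n (sl B i (t + s) j') ω) → AlS h n (sl B i t j) ω := by
  intro s
  induction s with
  | zero =>
    intro t j _ H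
    exact H j (by simp)
  | succ s ih =>
    intro t j hts H
    have hh2 : ∀ e, e < 2 → AlS h n (ch (sl B i t j) i e) ω := by
      intro e he
      rw [ch_sl]
      refine ih (t + 1) (2 * j + e) (by omega) fun j' hj' => ?_
      have h1 : t + 1 + s = t + (s + 1) := by omega
      rw [h1]
      refine H j' ?_
      rw [pow_succ, ← Nat.div_div_eq_div_mul, hj']
      omega
    refine AlS_split i ?_ (hh2 0 (by norm_num)) (hh2 1 (by norm_num))
    unfold sl
    simp only [if_true]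
    omega

theorem AlS_cube {h n : ℕ} (B : Tl) (i : Fin 3) {t : ℕ} (ht : B.1 i + t ≤ n)
    {ω : It n → Bool} (H : ∀ j ∈ range (2 ^ t), AlS h n (sl B i t j) ω) : AlS h n B ω := by
  rw [← sl_zero B i]
  refine AlS_slabs B i t 0 0 (by omega) fun j' hj' => ?_
  rw [zero_add]
  refine H j' (mem_range.2 ?_)
  rcases Nat.div_eq_zero_iff.1 hj' with h1 | h1
  · exact absurd h1 (by positivity)
  · exact h1

lemma Bd_succ {h m : ℕ} {p x : ℝ} (h0 : 0 ≤ p) (h1 : p ≤ 1) (H : Bd h m p x) :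
    Bd h (m + 1) p (2 * x) := by
  intro n hmn B hB
  have hle := hB.le 0
  have h2 : ∀ e, e < 2 → Pr p (fun ω => ¬ AlS h n (ch B 0 e) ω) ≤ x := by
    intro e he
    refine H n (by omega) _ ?_
    have h3 := Vl_ch hB 0 he
    rwa [show n - (m + 1) + 1 = n - m by omega] at h3
  have h3 : Pr p (fun ω => ¬ AlS h n B ω) ≤
      Pr p (fun ω => ¬ AlS h n (ch B 0 0) ω ∨ ¬ AlS h n (ch B 0 1) ω) := by
    refine Pr_mono h0 h1 fun ω hω => ?_
    by_contra hcon
    push Not at hcon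
    exact hω (AlS_split 0 (by omega) hcon.1 hcon.2)
  refine h3.trans ((Pr_or_le h0 h1 _ _).trans ?_)
  have := h2 0 (by norm_num)
  have := h2 1 (by norm_num)
  linarith

lemma Bd_slabs {h k : ℕ} {p x : ℝ} (h0 : 0 ≤ p) (h1 : p ≤ 1) (H : Bd h k p x) :
    Bd h (2 * k + 1) p ((2 ^ (k + 1) * x) ^ 3) := by
  intro n hn B hB
  have hle := hB.le
  set E : Fin 3 → (It n → Bool) → Prop := fun i ω =>
    ∃ j ∈ range (2 ^ (k + 1)), ¬ AlS h n (sl B i (k + 1) j) ω with hE
  set A : Fin 3 → Set (It n) := fun i => {b | B.1 i + (k + 1) ≤ b.1.1 i ∧ ∀ l, B.1 l ≤ b.1.1 l}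
    with hA
  have hdep : ∀ i, Dep (A i) (E i) := by
    intro i ω ω' hω
    have h2 : ∀ j ∈ range (2 ^ (k + 1)),
        (AlS h n (sl B i (k + 1) j) ω ↔ AlS h n (sl B i (k + 1) j) ω') := by
      intro j _
      refine AlS_dep h n (sl B i (k + 1) j) ω ω' fun b hb => hω b ?_
      have h3 : ∀ l, (sl B i (k + 1) j).1 l ≤ b.1.1 l := fun l => (hb l).1
      unfold sl at h3
      refine ⟨?_, fun l => ?_⟩
      · have h4 := h3 i
        simp only [if_true] at h4
        exact h4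
      · have h4 := h3 l
        by_cases hl : l = i
        · simp only [hl, if_true] at h4
          rw [hl]
          omega
        · simp only [hl, if_false] at h4
          exact h4
    constructor
    · rintro ⟨j, hj, h3⟩
      exact ⟨j, hj, fun h4 => h3 ((h2 j hj).2 h4)⟩
    · rintro ⟨j, hj, h3⟩
      exact ⟨j, hj, fun h4 => h3 ((h2 j hj).1 h4)⟩
  have hdis : ∀ i i' : Fin 3, i ≠ i' → ∀ b ∈ A i, b ∉ A i' := by
    rintro i i' hi b ⟨hb, hb2⟩ ⟨hb', -⟩
    have h2 : ∑ l, (b.1.1 l - B.1 l) + ∑ l, B.1 l = ∑ l, b.1.1 l := by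
      rw [← sum_add_distrib]
      exact sum_congr rfl fun l _ => Nat.sub_add_cancel (hb2 l)
    have h3 : (b.1.1 i - B.1 i) + (b.1.1 i' - B.1 i') ≤ ∑ l, (b.1.1 l - B.1 l) := by
      rw [← sum_pair (f := fun l => b.1.1 l - B.1 l) hi]
      exact sum_le_sum_of_subset (subset_univ _)
    rw [b.2.1, hB.1] at h2
    omega
  have hx0 : 0 ≤ x := by
    have h2 := H k le_rfl cube (by rw [Nat.sub_self]; exact Vl_cube)
    exact (Pr_nonneg h0 h1 _).trans h2
  have hpr : ∀ i, Pr p (E i) ≤ 2 ^ (k + 1) * x := by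
    intro i
    refine (Pr_exists_le h0 h1 (range (2 ^ (k + 1)))
      (fun j ω => ¬ AlS h n (sl B i (k + 1) j) ω)).trans ?_
    have h2 : ∀ j ∈ range (2 ^ (k + 1)),
        Pr p (fun ω => ¬ AlS h n (sl B i (k + 1) j) ω) ≤ x := by
      intro j hj
      refine H n (by omega) _ ?_
      have h3 := Vl_sl hB (i := i) (mem_range.1 hj)
      rwa [show n - (2 * k + 1) + (k + 1) = n - k by omega] at h3
    refine (sum_le_sum h2).trans ?_
    rw [sum_const, card_range, nsmul_eq_mul]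
    push_cast
    exact le_refl _
  have hnn : ∀ i, 0 ≤ Pr p (E i) := fun i => Pr_nonneg h0 h1 _
  have h2 : Pr p (fun ω => ¬ AlS h n B ω) ≤ Pr p (fun ω => E 0 ω ∧ (E 1 ω ∧ E 2 ω)) := by
    refine Pr_mono h0 h1 fun ω hω => ?_
    have h4 : ∀ i, E i ω := by
      intro i
      by_contra hcon
      simp only [hE, not_exists, not_and, not_not] at hcon
      refine hω (AlS_cube B i ?_ hcon)
      have := hle i
      omega
    exact ⟨h4 0, h4 1, h4 2⟩
  have h3 : Pr p (fun ω => E 1 ω ∧ E 2 ω) = Pr p (E 1) * Pr p (E 2) :=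
    Pr_and (hdep 1) (hdep 2) (hdis 1 2 (by decide))
  have h4 : Pr p (fun ω => E 0 ω ∧ (E 1 ω ∧ E 2 ω)) = Pr p (E 0) * Pr p (fun ω => E 1 ω ∧ E 2 ω) := by
    refine Pr_and (hdep 0) (B := A 1 ∪ A 2) (Dep.and ((hdep 1).mono Set.subset_union_left)
      ((hdep 2).mono Set.subset_union_right)) ?_
    rintro b hb (hb' | hb')
    · exact hdis 0 1 (by decide) b hb hb'
    · exact hdis 0 2 (by decide) b hb hb'
  rw [h4, h3] at h2
  refine h2.trans ?_
  have hx : 0 ≤ 2 ^ (k + 1) * x := by positivity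
  calc Pr p (E 0) * (Pr p (E 1) * Pr p (E 2))
      ≤ (2 ^ (k + 1) * x) * ((2 ^ (k + 1) * x) * (2 ^ (k + 1) * x)) := by
        refine mul_le_mul (hpr 0) ?_ (mul_nonneg (hnn 1) (hnn 2)) hx
        exact mul_le_mul (hpr 1) (hpr 2) (hnn 2) hx
    _ = (2 ^ (k + 1) * x) ^ 3 := by ring

lemma Bd.mono {h m : ℕ} {p x y : ℝ} (H : Bd h m p x) (hxy : x ≤ y) : Bd h m p y :=
  fun n hn B hB => (H n hn B hB).trans hxy

lemma Bd_double {h m : ℕ} {p : ℝ} (h0 : 0 ≤ p) (h1 : p ≤ 1)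
    (H : Bd h m p ((1 / 8) ^ (m + 1))) : Bd h (2 * m + 1) p ((1 / 8) ^ (2 * m + 1 + 1)) := by
  refine (Bd_slabs h0 h1 H).mono (le_of_eq ?_)
  rw [← mul_pow, ← pow_mul, show 2 * m + 1 + 1 = 2 * (m + 1) by ring, pow_mul (1 / 8 : ℝ) 2 (m + 1),
    mul_comm (m + 1) 3, pow_mul]
  congr 1
  norm_num

lemma Bd_many {h m : ℕ} {p x : ℝ} (h0 : 0 ≤ p) (h1 : p ≤ 1) (H : Bd h m p x) (d : ℕ) :
    Bd h (m + d) p (2 ^ d * x) := by
  induction d with
  | zero => simpa using H
  | succ d ih =>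
    have h2 := Bd_succ h0 h1 ih
    rw [← add_assoc]
    refine h2.mono (le_of_eq ?_)
    rw [pow_succ]
    ring

theorem Bd_bound {h k : ℕ} {p : ℝ} (h0 : 0 ≤ p) (h1 : p ≤ 1)
    (H : Bd h k p ((1 / 8) ^ (k + 1))) : ∀ n : ℕ, k ≤ n → Bd h n p ((1 / 2) ^ (n + 1)) := by
  have key : ∀ n : ℕ, k ≤ n → ∃ m : ℕ, m ≤ n ∧ n ≤ 2 * m + 1 ∧ Bd h m p ((1 / 8) ^ (m + 1)) := by
    intro n hn
    induction n, hn using Nat.le_induction with
    | base => exact ⟨k, le_refl _, by omega, H⟩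
    | succ n hn ih =>
      obtain ⟨m, hm, hm', hm2⟩ := ih
      rcases Nat.lt_or_ge n (2 * m + 1) with h2 | h2
      · exact ⟨m, by omega, by omega, hm2⟩
      · exact ⟨2 * m + 1, by omega, by omega, Bd_double h0 h1 hm2⟩
  intro n hn
  obtain ⟨m, hm, hm', hm2⟩ := key n hn
  obtain ⟨d, rfl⟩ := Nat.exists_eq_add_of_le hm
  refine (Bd_many h0 h1 hm2 d).mono ?_
  obtain ⟨c, hc⟩ : ∃ c, m + 1 = d + c := ⟨m + 1 - d, by omega⟩
  have e1 : m + d + 1 = 2 * d + c := by omega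
  rw [e1, hc, pow_add, pow_add, pow_mul, ← mul_assoc, ← mul_pow]
  have e2 : (2 * (1 / 8) : ℝ) = (1 / 2) ^ 2 := by norm_num
  rw [e2]
  refine mul_le_mul_of_nonneg_left ?_ (by positivity)
  exact pow_le_pow_left₀ (by norm_num) (by norm_num) c

/-- the probability that the cube has an `h`-split tiling by available boxes of order `n` -/
noncomputable def TS (h n : ℕ) (p : ℝ) : ℝ := Pr p (AlS h n cube)

lemma TS_le_one {h n : ℕ} {p : ℝ} (h0 : 0 ≤ p) (h1 : p ≤ 1) : TS h n p ≤ 1 := Pr_le_one h0 h1 _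

theorem TS_above {h k : ℕ} {p : ℝ} (hk : k ≤ h) (h0 : 0 ≤ p) (h1 : p ≤ 1)
    (H : 1 - T k p ≤ (1 / 8) ^ (k + 1)) (n : ℕ) (hn : k ≤ n) : 1 - (1 / 2) ^ (n + 1) ≤ TS h n p := by
  have h2 := Bd_bound h0 h1 ((Bd_base h0 h1 hk).mono H) n hn n le_rfl cube
    (by rw [Nat.sub_self]; exact Vl_cube)
  rw [Pr_not] at h2
  unfold TS
  linarith

end Pool.Agent.helper7.Blk
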