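import Pool.Agent.helper17.DyS.Slabs

/-!
# Branching tilings and split tilings
-/

set_option autoImplicit false
open scoped Classical
open Finset Pool.Agent.helper17.Dya Pool.Agent.helper17.DyS

namespace Pool.Agent.helper7.Blk

/-- the order of a box -/
def od (B : Tl) : ℕ := ∑ i, B.1 i

/-- `B` is a box in the unit cube -/
def Vp (B : Tl) : Prop := ∀ i, B.2 i < 2 ^ B.1 i

/-- `B` is a union of boxes of `R` -/
def Un {n : ℕ} (R : Set (It n)) (B : Tl) : Prop :=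
  ∀ x : Fin 3 → ℕ, (∀ i, x i < 2 ^ n) → Cv n B x → ∃ b ∈ R, Sb b.1 B ∧ Cv n b.1 x

/-- no common cell -/
def Dj (n : ℕ) (C D : Tl) : Prop := ∀ x : Fin 3 → ℕ, (∀ i, x i < 2 ^ n) → Cv n C x → ¬ Cv n D x

/-- `B` is a union of boxes of `R` and is small or contains two disjoint good boxes -/
inductive Good {n : ℕ} (h : ℕ) (R : Set (It n)) : Tl → Prop
  | small (B : Tl) : Un R B → n ≤ od B + h → Good h R B
  | two (B C D : Tl) : Un R B → (Vp C ∧ Sb C B ∧ od C ≤ od B + h) →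
      (Vp D ∧ Sb D B ∧ od D ≤ od B + h) → Dj n C D → Good h R C → Good h R D → Good h R B

/-- the boxes inside of `B` which are unions of boxes of `R` are small or are halved by `R` -/
def SpIn {n : ℕ} (h : ℕ) (B : Tl) (R : Set (It n)) : Prop :=
  ∀ S : Tl, Vp S → Sb S B → od S + h < n → Un R S → ∃ i, Un R (ch S i 0) ∧ Un R (ch S i 1)

/-- the box `B` has an `h`-branching tiling by available boxes of order `n` -/
def AlB (h n : ℕ) (B : Tl) (ω : It n → Bool) : Prop :=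
  ∃ R : Set (It n), (∀ b ∈ R, ω b = true ∧ Sb b.1 B) ∧
    (∀ x : Fin 3 → ℕ, (∀ i, x i < 2 ^ n) → Cv n B x → ∃! b, b ∈ R ∧ Cv n b.1 x) ∧ Good h R B

/-- the box `B` has an `h`-split tiling by available boxes of order `n` -/
def AlS (h n : ℕ) (B : Tl) (ω : It n → Bool) : Prop :=
  ∃ R : Set (It n), (∀ b ∈ R, ω b = true ∧ Sb b.1 B) ∧
    (∀ x : Fin 3 → ℕ, (∀ i, x i < 2 ^ n) → Cv n B x → ∃! b, b ∈ R ∧ Cv n b.1 x) ∧ SpIn h B R

lemma Vl_iff {m : ℕ} {B : Tl} : Vl m B ↔ od B = m ∧ Vp B := Iff.rfl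

lemma Un.mono {n : ℕ} {R R' : Set (It n)} {B : Tl} (h : Un R B) (hR : R ⊆ R') : Un R' B := by
  intro x hx hB
  obtain ⟨b, hb, h1, h2⟩ := h x hx hB
  exact ⟨b, hR hb, h1, h2⟩

lemma AlB.al {h n : ℕ} {B : Tl} {ω : It n → Bool} (H : AlB h n B ω) : Al n B ω := by
  obtain ⟨R, h1, h2, -⟩ := H
  exact ⟨R, h1, h2⟩

lemma od_le {S B : Tl} (h : Sb S B) : od B ≤ od S := sum_le_sum fun i _ => (h i).1

lemma le_od (B : Tl) (i : Fin 3) : B.1 i ≤ od B :=
  single_le_sum (f := fun i => B.1 i) (fun _ _ => Nat.zero_le _) (mem_univ i)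

/-- in a small box every tiling is split -/
lemma AlS_of_al {h n : ℕ} {B : Tl} {ω : It n → Bool} (hn : n ≤ od B + h) (H : Al n B ω) :
    AlS h n B ω := by
  obtain ⟨R, h1, h2⟩ := H
  refine ⟨R, h1, h2, fun S _ hS hS2 _ => ?_⟩
  have := od_le hS
  omega

lemma AlB_dep (h n : ℕ) (B : Tl) : Dep {b : It n | Sb b.1 B} (AlB h n B) := by
  intro ω ω' hω
  constructor
  · rintro ⟨R, h1, h2⟩
    exact ⟨R, fun b hb => ⟨(hω b (h1 b hb).2).symm.trans (h1 b hb).1, (h1 b hb).2⟩, h2⟩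
  · rintro ⟨R, h1, h2⟩
    exact ⟨R, fun b hb => ⟨(hω b (h1 b hb).2).trans (h1 b hb).1, (h1 b hb).2⟩, h2⟩

lemma AlS_dep (h n : ℕ) (B : Tl) : Dep {b : It n | Sb b.1 B} (AlS h n B) := by
  intro ω ω' hω
  constructor
  · rintro ⟨R, h1, h2⟩
    exact ⟨R, fun b hb => ⟨(hω b (h1 b hb).2).symm.trans (h1 b hb).1, (h1 b hb).2⟩, h2⟩
  · rintro ⟨R, h1, h2⟩
    exact ⟨R, fun b hb => ⟨(hω b (h1 b hb).2).trans (h1 b hb).1, (h1 b hb).2⟩, h2⟩

lemma Vp_ch {B : Tl} (hB : Vp B) (i : Fin 3) {e : ℕ} (he : e < 2) : Vp (ch B i e) :=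
  (Vl_ch (m := od B) ⟨rfl, hB⟩ i he).2

lemma od_ch (B : Tl) (hB : Vp B) (i : Fin 3) {e : ℕ} (he : e < 2) : od (ch B i e) = od B + 1 :=
  (Vl_ch (m := od B) ⟨rfl, hB⟩ i he).1

/-- a box inside of `B` is inside of a half of `B` or is halved by the halves of `B` -/
lemma Sb_half {S B : Tl} (h : Sb S B) (i : Fin 3) :
    (∃ e, e < 2 ∧ Sb S (ch B i e)) ∨ (S.1 i = B.1 i ∧ S.2 i = B.2 i) := by
  rcases Nat.lt_or_ge (B.1 i) (S.1 i) with hlt | hge
  · left
    refine ⟨S.2 i / 2 ^ (S.1 i - (B.1 i + 1)) % 2, Nat.mod_lt _ (by norm_num), fun j => ?_⟩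
    unfold ch
    by_cases hj : j = i
    · subst hj
      simp only [if_true]
      refine ⟨hlt, ?_⟩
      have h1 := (h j).2
      have h2 : S.2 j / 2 ^ (S.1 j - (B.1 j + 1)) / 2 = B.2 j := by
        rw [Nat.div_div_eq_div_mul, ← pow_succ, ← h1]
        congr 2
        omega
      omega
    · simp only [hj, if_false]
      exact h j
  · right
    have h1 : S.1 i = B.1 i := le_antisymm hge (h i).1
    refine ⟨h1, ?_⟩
    have h2 := (h i).2
    rw [h1, Nat.sub_self, pow_zero, Nat.div_one] at h2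
    exact h2

/-- two split tilings of the halves give a split tiling -/
theorem AlS_split {h n : ℕ} {B : Tl} (i : Fin 3) (hi : B.1 i + 1 ≤ n)
    {ω : It n → Bool} (H0 : AlS h n (ch B i 0) ω) (H1 : AlS h n (ch B i 1) ω) : AlS h n B ω := by
  obtain ⟨R, hR, hR2, hR3⟩ := H0
  obtain ⟨R', hR', hR2', hR3'⟩ := H1
  refine ⟨R ∪ R', ?_, ?_, ?_⟩
  · rintro b (hb | hb)
    · exact ⟨(hR b hb).1, (hR b hb).2.trans (Sb_ch (by norm_num))⟩
    · exact ⟨(hR' b hb).1, (hR' b hb).2.trans (Sb_ch (by norm_num))⟩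
  · intro x hx hB
    rcases ch_cover hi hB with h | h
    · obtain ⟨b, ⟨hb, hc⟩, hu⟩ := hR2 x hx h
      refine ⟨b, ⟨Or.inl hb, hc⟩, ?_⟩
      rintro b' ⟨hb' | hb', hc'⟩
      · exact hu b' ⟨hb', hc'⟩
      · exact (ch_disj h (Cv_of_Sb b'.2.le (hR' b' hb').2 hc')).elim
    · obtain ⟨b, ⟨hb, hc⟩, hu⟩ := hR2' x hx h
      refine ⟨b, ⟨Or.inr hb, hc⟩, ?_⟩
      rintro b' ⟨hb' | hb', hc'⟩
      · exact (ch_disj (Cv_of_Sb b'.2.le (hR b' hb').2 hc') h).elim
      · exact hu b' ⟨hb', hc'⟩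
  · intro S hS hSB hSn hU
    rcases Sb_half hSB i with ⟨e, he, hSe⟩ | ⟨e1, e2⟩
    · have he' : e = 0 ∨ e = 1 := by omega
      rcases he' with rfl | rfl
      · have hU' : Un R S := by
          intro x hx hxS
          obtain ⟨b, hb | hb, h1, h2⟩ := hU x hx hxS
          · exact ⟨b, hb, h1, h2⟩
          · exact (ch_Sb_disj (h1.trans hSe) (hR' b hb).2).elim
        obtain ⟨l, hUC, hUD⟩ := hR3 S hS hSe hSn hU'
        exact ⟨l, hUC.mono Set.subset_union_left, hUD.mono Set.subset_union_left⟩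
      · have hU' : Un R' S := by
          intro x hx hxS
          obtain ⟨b, hb | hb, h1, h2⟩ := hU x hx hxS
          · exact (ch_Sb_disj (hR b hb).2 (h1.trans hSe)).elim
          · exact ⟨b, hb, h1, h2⟩
        obtain ⟨l, hUC, hUD⟩ := hR3' S hS hSe hSn hU'
        exact ⟨l, hUC.mono Set.subset_union_right, hUD.mono Set.subset_union_right⟩
    · have key : ∀ b : It n, ∀ e : ℕ, Sb b.1 S → Sb b.1 (ch B i e) → Sb b.1 (ch S i e) := by
        intro b e h1 h2 j
        by_cases hj : j = i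
        · subst hj
          have h3 := h2 j
          unfold ch at h3 ⊢
          simp only [if_true] at h3 ⊢
          rw [e1, e2]
          exact h3
        · have h3 := h1 j
          unfold ch
          simp only [hj, if_false]
          exact h3
      have hUe : ∀ e, e < 2 → Un (R ∪ R') (ch S i e) := by
        intro e he x hx hxe
        have hle : ∀ j, (ch S i e).1 j ≤ n := by
          intro j
          have h1 := le_od (ch S i e) j
          rw [od_ch S hS i he] at h1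
          omega
        have hxS : Cv n S x := Cv_of_Sb hle (Sb_ch he) hxe
        obtain ⟨b, hb, h1, h2⟩ := hU x hx hxS
        have h3 : ∃ e', e' < 2 ∧ Sb b.1 (ch B i e') := by
          rcases hb with hb | hb
          · exact ⟨0, by norm_num, (hR b hb).2⟩
          · exact ⟨1, by norm_num, (hR' b hb).2⟩
        obtain ⟨e', he', h4⟩ := h3
        have h5 := key b e' h1 h4
        have h6 : Cv n (ch S i e') x := Cv_of_Sb b.2.le h5 h2
        have h7 : e = e' := by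
          have e3 : e = 0 ∨ e = 1 := by omega
          have e4 : e' = 0 ∨ e' = 1 := by omega
          rcases e3 with rfl | rfl <;> rcases e4 with rfl | rfl
          · rfl
          · exact (ch_disj hxe h6).elim
          · exact (ch_disj h6 hxe).elim
          · rfl
        subst h7
        exact ⟨b, hb, h5, h2⟩
      exact ⟨i, hUe 0 (by norm_num), hUe 1 (by norm_num)⟩

/-- the first cell of a box -/
lemma exists_cell {n : ℕ} {B : Tl} (hB : Vp B) (hn : ∀ i, B.1 i ≤ n) :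
    ∃ x : Fin 3 → ℕ, (∀ i, x i < 2 ^ n) ∧ Cv n B x := by
  refine ⟨fun i => B.2 i * 2 ^ (n - B.1 i), fun i => ?_, fun i => ?_⟩
  · have h1 : 2 ^ n = 2 ^ B.1 i * 2 ^ (n - B.1 i) := by
      rw [← pow_add]
      congr 1
      have := hn i
      omega
    rw [h1]
    exact Nat.mul_lt_mul_of_pos_right (hB i) (by positivity)
  · exact Nat.mul_div_cancel _ (by positivity)

lemma Good.un {h n : ℕ} {R : Set (It n)} {B : Tl} (H : Good h R B) : Un R B := by
  cases H with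
  | small _ h1 _ => exact h1
  | two _ _ _ h1 => exact h1

lemma Good.restrict {h n : ℕ} {R : Set (It n)} {B S : Tl} (H : Good h R B) (hBS : Sb B S) :
    Good h {b | b ∈ R ∧ Sb b.1 S} B := by
  induction H with
  | small B hU hn =>
    refine .small B ?_ hn
    intro x hx hxB
    obtain ⟨b, hb, h4, h5⟩ := hU x hx hxB
    exact ⟨b, ⟨hb, h4.trans hBS⟩, h4, h5⟩
  | two B C D hU hC hD hCD _ _ ihC ihD =>
    refine .two B C D ?_ hC hD hCD (ihC (hC.2.1.trans hBS)) (ihD (hD.2.1.trans hBS))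
    intro x hx hxB
    obtain ⟨b, hb, h4, h5⟩ := hU x hx hxB
    exact ⟨b, ⟨hb, h4.trans hBS⟩, h4, h5⟩

/-- restriction of a branching tiling to a good box -/
lemma AlB_restrict {h n : ℕ} {B S : Tl} {ω : It n → Bool} {R : Set (It n)}
    (h1 : ∀ b ∈ R, ω b = true ∧ Sb b.1 B)
    (h2 : ∀ x : Fin 3 → ℕ, (∀ i, x i < 2 ^ n) → Cv n B x → ∃! b, b ∈ R ∧ Cv n b.1 x)
    (hSB : Sb S B) (hG : Good h R S) : AlB h n S ω := by
  refine ⟨{b | b ∈ R ∧ Sb b.1 S}, fun b hb => ⟨(h1 b hb.1).1, hb.2⟩, ?_, hG.restrict (Sb.refl S)⟩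
  intro x hx hxS
  obtain ⟨b, hb, h4, h5⟩ := hG.un x hx hxS
  have hle : ∀ i, S.1 i ≤ n := fun i => (h4 i).1.trans (b.2.le i)
  obtain ⟨b', ⟨hb', hc'⟩, hu⟩ := h2 x hx (Cv_of_Sb hle hSB hxS)
  have e1 : b = b' := hu b ⟨hb, h5⟩
  subst e1
  exact ⟨b, ⟨⟨hb, h4⟩, h5⟩, fun b'' hb'' => hu b'' ⟨hb''.1.1, hb''.2⟩⟩

/-- a branching tiling of a large box contains branching tilings of two disjoint boxes -/
theorem AlB_two {h n : ℕ} {B : Tl} {ω : It n → Bool} (hn : od B + h < n)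
    (H : AlB h n B ω) : ∃ C D : Tl, (Vp C ∧ Sb C B ∧ od B < od C ∧ od C ≤ od B + h) ∧
      (Vp D ∧ Sb D B ∧ od B < od D ∧ od D ≤ od B + h) ∧ Dj n C D ∧ AlB h n C ω ∧ AlB h n D ω := by
  obtain ⟨R, h1, h2, h3⟩ := H
  cases h3 with
  | small _ _ h4 => omega
  | two _ C D hU hC hD hCD hGC hGD =>
    obtain ⟨c1, c2, c3⟩ := hC
    obtain ⟨d1, d2, d3⟩ := hD
    have hle : ∀ E : Tl, od E ≤ od B + h → ∀ i, E.1 i ≤ n := by
      intro E hE i
      have := le_od E i
      omega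
    have hlt : ∀ E F : Tl, Vp F → Sb E B → Sb F B → od F ≤ od B + h → Dj n E F →
        od B < od E := by
      intro E F hF hE hFB hFo hEF
      by_contra hcon
      have e1 : od E = od B := le_antisymm (not_lt.1 hcon) (od_le hE)
      have e2 : ∀ i, E.1 i = B.1 i := by
        intro i
        have h4 : ∀ i ∈ (univ : Finset (Fin 3)), B.1 i ≤ E.1 i := fun i _ => (hE i).1
        exact ((sum_eq_sum_iff_of_le h4).1 e1.symm i (mem_univ i)).symm
      have e3 : E = B := by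
        refine Prod.ext (funext e2) (funext fun i => ?_)
        have h4 := (hE i).2
        rw [e2 i, Nat.sub_self, pow_zero, Nat.div_one] at h4
        exact h4
      obtain ⟨x, hx, hxF⟩ := exists_cell hF (hle F hFo)
      refine hEF x hx ?_ hxF
      rw [e3]
      exact Cv_of_Sb (hle F hFo) hFB hxF
    exact ⟨C, D, ⟨c1, c2, hlt C D d1 c2 d2 d3 hCD, c3⟩,
      ⟨d1, d2, hlt D C c1 d2 c2 c3 (fun x hx hD hC => hCD x hx hC hD), d3⟩, hCD,
      AlB_restrict h1 h2 c2 hGC, AlB_restrict h1 h2 d2 hGD⟩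

/-- disjoint boxes are independent -/
lemma Pr_AlB_and {h n : ℕ} {p : ℝ} {C D : Tl} (hCD : Dj n C D) :
    Pr p (fun ω => AlB h n C ω ∧ AlB h n D ω) = Pr p (AlB h n C) * Pr p (AlB h n D) := by
  refine Pr_and (AlB_dep h n C) (AlB_dep h n D) fun b hb hb' => ?_
  obtain ⟨x, hx, hxb⟩ := exists_cell b.2.2 b.2.le
  exact hCD x hx (Cv_of_Sb b.2.le hb hxb) (Cv_of_Sb b.2.le hb' hxb)

/-- split tilings are branching -/
lemma Good_of_SpIn {h n : ℕ} (hh : 1 ≤ h) {B : Tl} {R : Set (It n)} (H : SpIn h B R) :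
    ∀ m : ℕ, ∀ S : Tl, n - od S ≤ m → Vp S → Sb S B → Un R S → Good h R S := by
  intro m
  induction m with
  | zero =>
    intro S hS _ _ hU
    exact .small S hU (by omega)
  | succ m ih =>
    intro S hS hV hSB hU
    rcases Nat.lt_or_ge (od S + h) n with h1 | h1
    · obtain ⟨i, h2, h3⟩ := H S hV hSB h1 hU
      have e0 := od_ch S hV i (e := 0) (by norm_num)
      have e1 := od_ch S hV i (e := 1) (by norm_num)
      have s0 : Sb (ch S i 0) S := Sb_ch (by norm_num)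
      have s1 : Sb (ch S i 1) S := Sb_ch (by norm_num)
      have v0 := Vp_ch hV i (e := 0) (by norm_num)
      have v1 := Vp_ch hV i (e := 1) (by norm_num)
      exact .two S (ch S i 0) (ch S i 1) hU ⟨v0, s0, by omega⟩ ⟨v1, s1, by omega⟩
        (fun x _ h4 h5 => ch_disj h4 h5) (ih _ (by omega) v0 (s0.trans hSB) h2)
        (ih _ (by omega) v1 (s1.trans hSB) h3)
    · exact .small S hU h1

end Pool.Agent.helper7.Blk
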