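import Pool.Agent.helper7.Blk.Defs

/-!
# The recursion for branching tilings
-/

set_option autoImplicit false
open scoped Classical
open Finset Pool.Agent.helper17.Dya Pool.Agent.helper17.DyS

namespace Pool.Agent.helper7.Blk

/-- relative shapes and positions of the boxes inside of a box -/
abbrev Jx (h : ℕ) : Type := (Fin 3 → Fin (h + 1)) × (Fin 3 → Fin (2 ^ h))

/-- the box of the relative shape and position `u` inside of `B` -/
def sub {h : ℕ} (B : Tl) (u : Jx h) : Tl :=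
  (fun i => B.1 i + (u.1 i : ℕ), fun i => B.2 i * 2 ^ (u.1 i : ℕ) + (u.2 i : ℕ))

lemma exists_sub {h : ℕ} {B C : Tl} (hCB : Sb C B) (ho : od C ≤ od B + h) :
    ∃ u : Jx h, sub B u = C := by
  have h1 : ∀ i, C.1 i - B.1 i ≤ h := by
    intro i
    have h2 : ∑ i, (C.1 i - B.1 i) + ∑ i, B.1 i = ∑ i, C.1 i := by
      rw [← sum_add_distrib]
      exact sum_congr rfl fun i _ => Nat.sub_add_cancel (hCB i).1
    have h3 : C.1 i - B.1 i ≤ ∑ i, (C.1 i - B.1 i) :=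
      single_le_sum (f := fun i => C.1 i - B.1 i) (fun _ _ => Nat.zero_le _) (mem_univ i)
    unfold od at ho
    omega
  refine ⟨(fun i => ⟨C.1 i - B.1 i, Nat.lt_succ_of_le (h1 i)⟩,
    fun i => ⟨C.2 i % 2 ^ (C.1 i - B.1 i), (Nat.mod_lt _ (by positivity)).trans_le
      (Nat.pow_le_pow_right (by norm_num) (h1 i))⟩), ?_⟩
  refine Prod.ext (funext fun i => ?_) (funext fun i => ?_)
  · change B.1 i + (C.1 i - B.1 i) = C.1 i
    have := (hCB i).1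
    omega
  · change B.2 i * 2 ^ (C.1 i - B.1 i) + C.2 i % 2 ^ (C.1 i - B.1 i) = C.2 i
    have h2 := Nat.div_add_mod (C.2 i) (2 ^ (C.1 i - B.1 i))
    rw [(hCB i).2, mul_comm] at h2
    exact h2

lemma card_Jx (h : ℕ) : Fintype.card (Jx h) ≤ 64 ^ h := by
  have h1 : h + 1 ≤ 2 ^ h := Nat.lt_two_pow_self
  have h2 : Fintype.card (Jx h) = (h + 1) ^ 3 * (2 ^ h) ^ 3 := by
    simp [Jx, Fintype.card_prod]
  rw [h2]
  calc (h + 1) ^ 3 * (2 ^ h) ^ 3 ≤ (2 ^ h) ^ 3 * (2 ^ h) ^ 3 :=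
        Nat.mul_le_mul_right _ (Nat.pow_le_pow_left h1 3)
    _ = 64 ^ h := by
        rw [← mul_pow, ← mul_pow, ← pow_mul, mul_comm h 3, pow_mul]
        norm_num

/-- the union bound over the two boxes -/
theorem step {h n : ℕ} {p A : ℝ} {B : Tl} (h0 : 0 ≤ p) (h1 : p ≤ 1)
    (hn : od B + h < n)
    (hA : ∀ C : Tl, Vp C → od B < od C → od C ≤ od B + h → Pr p (AlB h n C) ≤ A) (hA0 : 0 ≤ A) :
    Pr p (AlB h n B) ≤ (64 ^ h * A) ^ 2 := by
  set s : Finset (Jx h × Jx h) := univ.filter fun uv =>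
    (Vp (sub B uv.1) ∧ od B < od (sub B uv.1) ∧ od (sub B uv.1) ≤ od B + h) ∧
    (Vp (sub B uv.2) ∧ od B < od (sub B uv.2) ∧ od (sub B uv.2) ≤ od B + h) ∧
    Dj n (sub B uv.1) (sub B uv.2) with hs
  have h2 : Pr p (AlB h n B) ≤
      Pr p (fun ω => ∃ uv ∈ s, AlB h n (sub B uv.1) ω ∧ AlB h n (sub B uv.2) ω) := by
    refine Pr_mono h0 h1 fun ω hω => ?_
    obtain ⟨C, D, ⟨c1, c2, c3, c4⟩, ⟨d1, d2, d3, d4⟩, hCD, hC, hD⟩ := AlB_two hn hω
    obtain ⟨u, rfl⟩ := exists_sub c2 c4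
    obtain ⟨v, rfl⟩ := exists_sub d2 d4
    exact ⟨(u, v), mem_filter.2 ⟨mem_univ _, ⟨c1, c3, c4⟩, ⟨d1, d3, d4⟩, hCD⟩, hC, hD⟩
  refine h2.trans ((Pr_exists_le h0 h1 s _).trans ?_)
  have h3 : ∀ uv ∈ s, Pr p (fun ω => AlB h n (sub B uv.1) ω ∧ AlB h n (sub B uv.2) ω) ≤
      A * A := by
    intro uv huv
    obtain ⟨-, ⟨c1, c3, c4⟩, ⟨d1, d3, d4⟩, hCD⟩ := mem_filter.1 huv
    rw [Pr_AlB_and hCD]
    exact mul_le_mul (hA _ c1 c3 c4) (hA _ d1 d3 d4) (Pr_nonneg h0 h1 _) hA0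
  refine (sum_le_sum h3).trans ?_
  rw [sum_const, nsmul_eq_mul]
  have h4 : (s.card : ℝ) ≤ 64 ^ h * 64 ^ h := by
    have h5 : s.card ≤ 64 ^ h * 64 ^ h := by
      refine (card_le_univ s).trans ?_
      rw [Fintype.card_prod]
      exact Nat.mul_le_mul (card_Jx h) (card_Jx h)
    exact_mod_cast h5
  calc (s.card : ℝ) * (A * A) ≤ (64 ^ h * 64 ^ h) * (A * A) :=
        mul_le_mul_of_nonneg_right h4 (by positivity)
    _ = (64 ^ h * A) ^ 2 := by ring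

/-- branching tilings after a block of small probabilities -/
theorem main {h n N : ℕ} {p ε : ℝ} (h0 : 0 ≤ p) (h1 : p ≤ 1) (hh : 1 ≤ h) (hN : h < N)
    (hε : ∀ m, N - h ≤ m → m < N → T m p ≤ ε) (hδ : (64 ^ h) ^ 2 * ε ≤ 1) (hε0 : 0 ≤ ε) :
    ∀ m, N - h ≤ m → m ≤ n → ∀ B : Tl, Vl (n - m) B →
      (64 ^ h) ^ 2 * Pr p (AlB h n B) ≤ ((64 ^ h) ^ 2 * ε) ^ 2 ^ ((m - (N - h)) / h) := by
  have hδ0 : 0 ≤ (64 ^ h) ^ 2 * ε := by positivity
  have hM : (0 : ℝ) < (64 ^ h) ^ 2 := by positivity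
  intro m
  induction m using Nat.strong_induction_on with
  | _ m ih =>
    intro hm hmn B hB
    rcases Nat.lt_or_ge m N with hmN | hmN
    · have e1 : (m - (N - h)) / h = 0 := Nat.div_eq_of_lt (by omega)
      rw [e1, pow_zero, pow_one]
      refine mul_le_mul_of_nonneg_left ?_ hM.le
      have h2 : Pr p (AlB h n B) ≤ Pr p (Al n B) := Pr_mono h0 h1 fun ω hω => hω.al
      rw [Pr_Al hmn hB] at h2
      exact h2.trans (hε m hm hmN)
    · set r := (m - h - (N - h)) / h with hr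
      have e1 : (m - (N - h)) / h = r + 1 := by
        rw [hr, show m - (N - h) = m - h - (N - h) + h by omega,
          Nat.add_div_right _ (by omega)]
      rw [e1]
      set A : ℝ := ((64 ^ h) ^ 2 * ε) ^ 2 ^ r / (64 ^ h) ^ 2 with hA
      have hod : od B = n - m := hB.1
      have h2 := step (h := h) (n := n) (A := A) (B := B) h0 h1 (by omega) (fun C hC hC1 hC2 => by
        have h3 := ih (n - od C) (by omega) (by omega) (by omega) C
          ⟨by change od C = _; omega, hC⟩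
        have h4 : ((64 ^ h) ^ 2 * ε) ^ 2 ^ ((n - od C - (N - h)) / h) ≤
            ((64 ^ h) ^ 2 * ε) ^ 2 ^ r := by
          refine pow_le_pow_of_le_one hδ0 hδ (Nat.pow_le_pow_right (by norm_num) ?_)
          exact Nat.div_le_div_right (by omega)
        rw [hA, le_div_iff₀ hM, mul_comm]
        exact h3.trans h4) (by positivity)
      calc (64 ^ h) ^ 2 * Pr p (AlB h n B) ≤ (64 ^ h) ^ 2 * (64 ^ h * A) ^ 2 :=
            mul_le_mul_of_nonneg_left h2 hM.le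
        _ = ((64 ^ h) ^ 2 * A) ^ 2 := by ring
        _ = (((64 ^ h) ^ 2 * ε) ^ 2 ^ r) ^ 2 := by
            rw [hA, mul_div_cancel₀ _ hM.ne']
        _ = ((64 ^ h) ^ 2 * ε) ^ 2 ^ (r + 1) := by
            rw [pow_succ 2 r, pow_mul ((64 ^ h) ^ 2 * ε) (2 ^ r) 2]

/-- the probability that the cube has an `h`-branching tiling by available boxes of order `n` -/
noncomputable def TB (h n : ℕ) (p : ℝ) : ℝ := Pr p (AlB h n cube)

theorem TB_le {h n N : ℕ} {p ε : ℝ} (h0 : 0 ≤ p) (h1 : p ≤ 1) (hh : 1 ≤ h) (hN : h < N)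
    (hNn : N ≤ n) (hε : ∀ m, N - h ≤ m → m < N → T m p ≤ ε) (hδ : (64 ^ h) ^ 2 * ε ≤ 1)
    (hε0 : 0 ≤ ε) : TB h n p ≤ ((64 ^ h) ^ 2 * ε) ^ 2 ^ ((n - (N - h)) / h) := by
  have h2 := main h0 h1 hh hN hε hδ hε0 n (by omega) le_rfl cube (by
    rw [Nat.sub_self]
    exact Vl_cube)
  refine le_trans ?_ h2
  have h3 : 0 ≤ TB h n p := Pr_nonneg h0 h1 _
  have h4 : (1 : ℝ) ≤ (64 ^ h) ^ 2 := one_le_pow₀ (one_le_pow₀ (by norm_num))
  exact le_mul_of_one_le_left h3 h4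

lemma TB_nonneg {h n : ℕ} {p : ℝ} (h0 : 0 ≤ p) (h1 : p ≤ 1) : 0 ≤ TB h n p := Pr_nonneg h0 h1 _

lemma TB_le_one {h n : ℕ} {p : ℝ} (h0 : 0 ≤ p) (h1 : p ≤ 1) : TB h n p ≤ 1 := Pr_le_one h0 h1 _

end Pool.Agent.helper7.Blk
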